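import Pool.Agent.Run7.h882.LW.EMB
import Pool.Agent.Run7.h520.LW.I2

/-!
# CROSS (h520): the predimension in the glued structure
-/

set_option autoImplicit false
set_option linter.all false

namespace Run7.h67.LW
open Classical Run7.h520.LW Run7.h882.LW

theorem gl_in {V W : Type} {A : Finset W} {φ : W → V} {x : W} (hx : x ∈ A) :
    gl A φ x = Sum.inl (φ x) := by
  unfold gl; exact if_pos hx
theorem gl_out {V W : Type} {A : Finset W} {φ : W → V} {x : W} (hx : x ∉ A) :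
    gl A φ x = Sum.inr x := by
  unfold gl; exact if_neg hx

/-- transport of the weight of the common lines -/
theorem cm_image {V W : Type} [DecidableEq W] {G : Str V} {H : Str W} {Y : Finset V} {f : V → W}
    (hf : ∀ x ∈ Y, ∀ y ∈ Y, f x = f y → x = y) {a b : W} {x p : V}
    (h1 : ∀ l ∈ lin Y, (H.On a (lm f l) ↔ G.On x l))
    (h2 : ∀ l ∈ lin Y, (H.On b (lm f l) ↔ G.On p l)) :
    H.cm (Y.image f) (a, b) = G.cm Y (x, p) := by
  unfold Str.cm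
  symm
  refine Finset.sum_bij (fun l _ => lm f l) ?_ ?_ ?_ ?_
  · intro l hl
    rw [Finset.mem_filter] at hl ⊢
    refine ⟨(lin_image hf (Finset.Subset.refl Y) _).2 ⟨l, hl.1, rfl⟩, ?_, ?_⟩
    · exact (h1 l hl.1).2 hl.2.1
    · exact (h2 l hl.1).2 hl.2.2
  · intro l hl l' hl' he
    rw [Finset.mem_filter] at hl hl'
    exact lm_inj hf (mem_lin.1 hl.1).2.2 (mem_lin.1 hl'.1).2.2 he
  · intro L hL
    rw [Finset.mem_filter] at hL
    obtain ⟨l, hl, rfl⟩ := (lin_image hf (Finset.Subset.refl Y) _).1 hL.1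
    exact ⟨l, Finset.mem_filter.2 ⟨hl, (h1 l hl).1 hL.2.1, (h2 l hl).1 hL.2.2⟩, rfl⟩
  · intro l hl
    rfl

section

variable {M : Str ℕ} {Ω : Set ℕ} {b0 h : ℕ} {T U Q B A P W D : Finset ℕ}
  {σ : ℕ → ℕ → ℕ} {τ : ℕ → ℕ} {lp : ℕ → ℕ × List ℕ} {S : Str (ℕ ⊕ ℕ)}

theorem cfg_QU (hc : Cfg M Ω b0 h T U Q B A P W D σ τ lp) : Q ⊆ U := by
  rw [← hc.UB]; exact Finset.inter_subset_left
theorem cfg_QB (hc : Cfg M Ω b0 h T U Q B A P W D σ τ lp) : Q ⊆ B := by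
  rw [← hc.UB]; exact Finset.inter_subset_right
theorem cfg_QP (hc : Cfg M Ω b0 h T U Q B A P W D σ τ lp) : Q ⊆ P := by
  rw [← hc.UP]; exact Finset.inter_subset_right
theorem cfg_τD (hc : Cfg M Ω b0 h T U Q B A P W D σ τ lp) : ∀ x ∈ Q, τ x ∈ D := by
  intro x hx
  apply hc.PD
  rw [← hc.τP]
  exact Finset.mem_image_of_mem τ (cfg_QP hc hx)

/-- the point `σ t x` of a new edge is not in the copy of `Q` -/
theorem cfg_notin (hc : Cfg M Ω b0 h T U Q B A P W D σ τ lp) {t : ℕ} (ht : t ∈ T) {x : ℕ}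
    (hx : x ∈ B) (hxU : x ∉ U) : σ t x ∉ Q.image τ := by
  intro h1
  obtain ⟨q, hq, h2⟩ := Finset.mem_image.1 h1
  rw [← hc.σP t ht q (cfg_QP hc hq)] at h2
  have h3 := (hc.emb t ht).inj q (hc.PW (cfg_QP hc hq)) x (hc.BW hx) h2
  rw [h3] at hq
  exact hxU (cfg_QU hc hq)

theorem gl_inter_D (X : Finset (ℕ ⊕ ℕ)) : X ∩ D.image Sum.inl = (prD D X).image Sum.inl := by
  ext z
  rw [Finset.mem_inter, Finset.mem_image, Finset.mem_image]
  constructor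
  · rintro ⟨hz, x, hx, rfl⟩
    exact ⟨x, Finset.mem_filter.2 ⟨hx, hz⟩, rfl⟩
  · rintro ⟨x, hx, rfl⟩
    rw [prD, Finset.mem_filter] at hx
    exact ⟨hx.2, x, hx.1, rfl⟩

theorem gl_inter_U (X : Finset (ℕ ⊕ ℕ)) :
    X ∩ U.image (gl Q τ) = (prU U Q τ X).image (gl Q τ) := by
  ext z
  rw [Finset.mem_inter, Finset.mem_image, Finset.mem_image]
  constructor
  · rintro ⟨hz, x, hx, rfl⟩
    exact ⟨x, Finset.mem_filter.2 ⟨hx, hz⟩, rfl⟩
  · rintro ⟨x, hx, rfl⟩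
    rw [prU, Finset.mem_filter] at hx
    exact ⟨hx.2, x, hx.1, rfl⟩

theorem gl_inter_Q (hQU : Q ⊆ U)
    (hint : (D.image Sum.inl) ∩ (U.image (gl Q τ)) = (Q.image τ).image Sum.inl)
    (X : Finset (ℕ ⊕ ℕ)) :
    X ∩ (D.image Sum.inl ∩ U.image (gl Q τ)) = (prU U Q τ X ∩ Q).image (gl Q τ) := by
  rw [hint]
  ext z
  constructor
  · intro hz
    obtain ⟨hz1, hz2⟩ := Finset.mem_inter.1 hz
    obtain ⟨y, hy, rfl⟩ := Finset.mem_image.1 hz2
    obtain ⟨x, hx, rfl⟩ := Finset.mem_image.1 hy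
    refine Finset.mem_image.2 ⟨x, Finset.mem_inter.2 ⟨Finset.mem_filter.2 ⟨hQU hx, ?_⟩, hx⟩,
      gl_in hx⟩
    rw [gl_in hx]
    exact hz1
  · intro hz
    obtain ⟨x, hx, rfl⟩ := Finset.mem_image.1 hz
    obtain ⟨hx1, hx2⟩ := Finset.mem_inter.1 hx
    rw [prU, Finset.mem_filter] at hx1
    refine Finset.mem_inter.2 ⟨hx1.2, ?_⟩
    rw [gl_in hx2]
    exact Finset.mem_image_of_mem _ (Finset.mem_image_of_mem _ hx2)

theorem prD_sub (X : Finset (ℕ ⊕ ℕ)) : prD D X ⊆ D := Finset.filter_subset _ _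
theorem prU_sub (X : Finset (ℕ ⊕ ℕ)) : prU U Q τ X ⊆ U := Finset.filter_subset _ _

/-- `Fit` -/
theorem cross_fit (hE : S_EMB) (hT : S_T2) (hc : Cfg M Ω b0 h T U Q B A P W D σ τ lp)
    (hS : GlS M T U Q B A D σ τ S) (X : Finset (ℕ ⊕ ℕ)) (hX : S.PC X ↑(ZZ U Q D τ)) :
    Fit M Ω U Q D τ (prD D X) (prU U Q τ X) where
  pD := by
    have h1 : S.PC (X ∩ D.image Sum.inl) ↑(D.image Sum.inl ∪ U.image (gl Q τ)) :=
      hX.inter (hT.pcD hS.t2)
    have h2 : S.PC (X ∩ D.image Sum.inl) ↑(D.image (Sum.inl : ℕ → ℕ ⊕ ℕ)) :=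
      h1.mono (Finset.coe_subset.2 Finset.subset_union_left)
        (Finset.coe_subset.2 Finset.inter_subset_right)
    rw [gl_inter_D] at h2
    exact ((hE.pc hS.eD (prD_sub X)).1 h2).trans hc.cD.1
  pU := by
    have h1 : S.PC (X ∩ U.image (gl Q τ)) ↑(D.image Sum.inl ∪ U.image (gl Q τ)) :=
      hX.inter (hT.pcU hS.t2)
    have h2 : S.PC (X ∩ U.image (gl Q τ)) ↑(U.image (gl Q τ)) :=
      h1.mono (Finset.coe_subset.2 Finset.subset_union_right)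
        (Finset.coe_subset.2 Finset.inter_subset_right)
    rw [gl_inter_U] at h2
    exact ((hE.pc hS.eU (prU_sub X)).1 h2).trans hc.cU.1
  sD := prD_sub X
  sU := prU_sub X
  fit := by
    intro x hx
    rw [prU, prD, Finset.mem_filter, Finset.mem_filter, gl_in hx]
    exact ⟨fun h1 => ⟨cfg_τD hc x hx, h1.2⟩, fun h1 => ⟨cfg_QU hc hx, h1.2⟩⟩

/-- cardinalities -/
theorem cross_card (hc : Cfg M Ω b0 h T U Q B A P W D σ τ lp)
    (hS : GlS M T U Q B A D σ τ S) (X : Finset (ℕ ⊕ ℕ)) (hX : X ⊆ ZZ U Q D τ) :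
    X.card + (prU U Q τ X ∩ Q).card = (prD D X).card + (prU U Q τ X).card := by
  have h1 := Finset.card_union_add_card_inter (X ∩ D.image Sum.inl) (X ∩ U.image (gl Q τ))
  rw [← Finset.inter_union_distrib_left, ← Finset.inter_inter_distrib_left,
    gl_inter_Q (cfg_QU hc) hS.int, gl_inter_D, gl_inter_U,
    Finset.card_image_of_injective _ Sum.inl_injective,
    Finset.card_image_of_injOn (s := prU U Q τ X), Finset.card_image_of_injOn (s := prU U Q τ X ∩ Q),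
    Finset.inter_eq_left.2 (show X ⊆ D.image Sum.inl ∪ U.image (gl Q τ) from hX)] at h1
  · exact h1
  · intro a ha b hb hab
    exact hS.eU.inj a (prU_sub X (Finset.inter_subset_left ha)) b
      (prU_sub X (Finset.inter_subset_left hb)) hab
  · intro a ha b hb hab
    exact hS.eU.inj a (prU_sub X ha) b (prU_sub X hb) hab

/-- the weight of the common lines of a new edge -/
theorem cross_cm (hc : Cfg M Ω b0 h T U Q B A P W D σ τ lp)
    (hS : GlS M T U Q B A D σ τ S) {XU : Finset ℕ} (hXU : XU ⊆ U) {t : ℕ} (ht : t ∈ T) {x p : ℕ}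
    (hx : x ∈ B) (hxD : σ t x ∈ D) (hp : p ∈ U) (hpB : p ∉ B) :
    S.cm ((XU ∩ Q).image (gl Q τ)) (Sum.inl (σ t x), Sum.inr p) = M.cm (XU ∩ Q) (x, p) ∧
    S.cm ((XU ∩ Q).image (gl Q τ)) (Sum.inr p, Sum.inl (σ t x)) = M.cm (XU ∩ Q) (p, x) := by
  have hinj : ∀ a ∈ XU ∩ Q, ∀ b ∈ XU ∩ Q, gl Q τ a = gl Q τ b → a = b := fun a ha b hb hab =>
    hS.eU.inj a (hXU (Finset.inter_subset_left ha)) b (hXU (Finset.inter_subset_left hb)) hab
  have h1 : ∀ l ∈ lin (XU ∩ Q), (S.On (Sum.inl (σ t x)) (lm (gl Q τ) l) ↔ M.On x l) := by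
    intro l hl
    have hlQ : ∀ y ∈ l.2, y ∈ Q := fun y hy => Finset.inter_subset_right ((mem_lin.1 hl).2.2 y hy)
    have e1 : l.2.map (gl Q τ) = (l.2.map (σ t)).map Sum.inl := by
      rw [List.map_map]
      refine List.map_congr_left fun y hy => ?_
      rw [gl_in (hlQ y hy), Function.comp_apply, hc.σP t ht y (cfg_QP hc (hlQ y hy))]
    unfold lm
    rw [e1, ← (hc.emb t ht).on x (hc.BW hx) l fun y hy => hc.PW (cfg_QP hc (hlQ y hy))]
    refine hS.eD.on (σ t x) hxD (l.1, l.2.map (σ t)) ?_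
    intro y hy
    obtain ⟨z, hz, rfl⟩ := List.mem_map.1 hy
    rw [hc.σP t ht z (cfg_QP hc (hlQ z hz))]
    exact cfg_τD hc z (hlQ z hz)
  have h2 : ∀ l ∈ lin (XU ∩ Q), (S.On (Sum.inr p) (lm (gl Q τ) l) ↔ M.On p l) := by
    intro l hl
    have hlQ : ∀ y ∈ l.2, y ∈ Q := fun y hy => Finset.inter_subset_right ((mem_lin.1 hl).2.2 y hy)
    have hpQ : p ∉ Q := fun h => hpB (cfg_QB hc h)
    rw [← gl_out (φ := τ) hpQ]
    exact hS.eU.on p hp l fun y hy => cfg_QU hc (hlQ y hy)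
  exact ⟨cm_image hinj h1 h2, cm_image hinj h2 h1⟩

/-- the new edges of the glued structure -/
theorem cross_ned (hc : Cfg M Ω b0 h T U Q B A P W D σ τ lp)
    (hS : GlS M T U Q B A D σ τ S) (X : Finset (ℕ ⊕ ℕ)) :
    S.ned ((prD D X).image Sum.inl) ((prU U Q τ X).image (gl Q τ)) =
      (((prD D X) ×ˢ (prU U Q τ X)).filter (fun e => nE M T U B A σ e.1 e.2)).image
        (fun e => ((Sum.inl e.1 : ℕ ⊕ ℕ), (Sum.inr e.2 : ℕ ⊕ ℕ))) ∪
      (((prD D X) ×ˢ (prU U Q τ X)).filter (fun e => nE M T U B A σ e.1 e.2)).image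
        (fun e => ((Sum.inr e.2 : ℕ ⊕ ℕ), (Sum.inl e.1 : ℕ ⊕ ℕ))) := by
  -- an edge between a vertex of `D` and a vertex of `U`
  have key : ∀ a b : ℕ ⊕ ℕ, a ∈ (prD D X).image Sum.inl → a ∉ (prU U Q τ X).image (gl Q τ) →
      b ∈ (prU U Q τ X).image (gl Q τ) → b ∉ (prD D X).image Sum.inl → S.R a b →
      ∃ e ∈ ((prD D X) ×ˢ (prU U Q τ X)).filter (fun e => nE M T U B A σ e.1 e.2),
        a = Sum.inl e.1 ∧ b = Sum.inr e.2 := by
    intro a b ha ha' hb hb' hab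
    obtain ⟨y, hy, rfl⟩ := Finset.mem_image.1 ha
    obtain ⟨p, hp, rfl⟩ := Finset.mem_image.1 hb
    have hpQ : p ∉ Q := by
      intro hpQ
      apply hb'
      rw [gl_in hpQ]
      apply Finset.mem_image_of_mem
      rw [prD, Finset.mem_filter]
      refine ⟨cfg_τD hc p hpQ, ?_⟩
      rw [prU, Finset.mem_filter, gl_in hpQ] at hp
      exact hp.2
    have hyQ : y ∉ Q.image τ := by
      intro hyQ
      obtain ⟨q, hq, rfl⟩ := Finset.mem_image.1 hyQ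
      apply ha'
      rw [← gl_in (φ := τ) hq]
      apply Finset.mem_image_of_mem
      rw [prU, Finset.mem_filter, gl_in hq]
      rw [prD, Finset.mem_filter] at hy
      exact ⟨cfg_QU hc hq, hy.2⟩
    rw [gl_out hpQ] at hab ⊢
    have h1 := (hS.R y (prD_sub X hy) hyQ p (prU_sub X hp) hpQ).1 hab
    exact ⟨(y, p), Finset.mem_filter.2 ⟨Finset.mem_product.2 ⟨hy, hp⟩, h1.2.2⟩, rfl, rfl⟩
  have key2 : ∀ e ∈ ((prD D X) ×ˢ (prU U Q τ X)).filter (fun e => nE M T U B A σ e.1 e.2),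
      (Sum.inl e.1 : ℕ ⊕ ℕ) ∈ (prD D X).image Sum.inl ∧
      (Sum.inl e.1 : ℕ ⊕ ℕ) ∉ (prU U Q τ X).image (gl Q τ) ∧
      (Sum.inr e.2 : ℕ ⊕ ℕ) ∈ (prU U Q τ X).image (gl Q τ) ∧
      (Sum.inr e.2 : ℕ ⊕ ℕ) ∉ (prD D X).image (Sum.inl : ℕ → ℕ ⊕ ℕ) ∧
      S.R (Sum.inl e.1) (Sum.inr e.2) := by
    rintro ⟨y, p⟩ he
    obtain ⟨h1, h2⟩ := Finset.mem_filter.1 he
    obtain ⟨hy, hp⟩ := Finset.mem_product.1 h1
    obtain ⟨t, ht, x, hx, hxU, hpA, hpB, hR, rfl⟩ := h2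
    have hxB := (Finset.mem_inter.1 hx).2
    have hyQ : σ t x ∉ Q.image τ := cfg_notin hc ht hxB hxU
    have hpQ : p ∉ Q := fun h => hpB (cfg_QB hc h)
    refine ⟨Finset.mem_image_of_mem _ hy, ?_, ?_, ?_, ?_⟩
    · intro h3
      obtain ⟨z, hz, h4⟩ := Finset.mem_image.1 h3
      by_cases hzQ : z ∈ Q
      · rw [gl_in hzQ] at h4
        exact hyQ (Finset.mem_image.2 ⟨z, hzQ, Sum.inl_injective h4⟩)
      · rw [gl_out hzQ] at h4
        exact absurd h4 (by simp)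
    · exact Finset.mem_image.2 ⟨p, hp, gl_out hpQ⟩
    · intro h3
      obtain ⟨z, hz, h4⟩ := Finset.mem_image.1 h3
      exact absurd h4 (by simp)
    · refine (hS.R _ (prD_sub X hy) hyQ p (prU_sub X hp) hpQ).2 ⟨?_, hR.1, t, ht, x, hx, hxU, hpA, hpB, hR, rfl⟩
      exact ((hc.emb t ht).pt x (hc.BW hxB)).2 hR.2.1
  ext ⟨a, b⟩
  rw [Finset.mem_union, Finset.mem_image, Finset.mem_image]
  unfold Str.ned
  rw [Finset.mem_filter, Str.mem_ed, Str.mem_ed, Str.mem_ed]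
  constructor
  · rintro ⟨⟨h1, h2, h3⟩, h4, h5⟩
    rw [Finset.mem_union] at h1 h2
    simp only [not_and] at h4 h5
    simp only at h1 h2 h3 h4 h5
    by_cases ha : a ∈ (prD D X).image Sum.inl
    · have hb : b ∉ (prD D X).image Sum.inl := fun hb => h4 ha hb h3
      have hb' := h2.resolve_left hb
      have ha' : a ∉ (prU U Q τ X).image (gl Q τ) := fun ha' => h5 ha' hb' h3
      obtain ⟨e, he, rfl, rfl⟩ := key a b ha ha' hb' hb h3
      exact Or.inl ⟨e, he, rfl⟩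
    · have ha' := h1.resolve_left ha
      have hb' : b ∉ (prU U Q τ X).image (gl Q τ) := fun hb' => h5 ha' hb' h3
      have hb := h2.resolve_right hb'
      obtain ⟨e, he, rfl, rfl⟩ := key b a hb hb' ha' ha h3.symm
      exact Or.inr ⟨e, he, rfl⟩
  · rintro (⟨e, he, h1⟩ | ⟨e, he, h1⟩)
    · rw [Prod.mk.injEq] at h1
      obtain ⟨rfl, rfl⟩ := h1
      obtain ⟨k1, k2, k3, k4, k5⟩ := key2 e he
      exact ⟨⟨Finset.mem_union_left _ k1, Finset.mem_union_right _ k3, k5⟩,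
        fun h => k4 h.2.1, fun h => k2 h.1⟩
    · rw [Prod.mk.injEq] at h1
      obtain ⟨rfl, rfl⟩ := h1
      obtain ⟨k1, k2, k3, k4, k5⟩ := key2 e he
      exact ⟨⟨Finset.mem_union_right _ k3, Finset.mem_union_left _ k1, k5.symm⟩,
        fun h => k4 h.1, fun h => k2 h.2.1⟩

end

theorem CROSS (hE : S_EMB) (hT : S_T2) (hCM : S_CM) : S_CROSS := by
  intro M Ω b0 h T U Q B A P W D σ τ lp hc S hS X hX
  have hXZ : X ⊆ ZZ U Q D τ := Finset.coe_subset.1 hX.sub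
  refine ⟨cross_fit hE hT hc hS X hX, ?_, cross_card hc hS X hXZ⟩
  have h1 := hT.dl hS.t2 (X := X) hXZ
  rw [gl_inter_Q (cfg_QU hc) hS.int, gl_inter_D, gl_inter_U, hE.dl hS.eD (prD_sub X),
    hE.dl hS.eU (prU_sub X), hE.dl hS.eU (Finset.inter_subset_left.trans (prU_sub X)),
    cross_ned hc hS X] at h1
  rw [← h1]
  have hcm : ∀ e ∈ ((prD D X) ×ˢ (prU U Q τ X)).filter (fun e => nE M T U B A σ e.1 e.2),
      w 0 - S.cm ((prU U Q τ X ∩ Q).image (gl Q τ)) (Sum.inl e.1, Sum.inr e.2) =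
        w (mis (lp e.2) (prU U Q τ X)) ∧
      w 0 - S.cm ((prU U Q τ X ∩ Q).image (gl Q τ)) (Sum.inr e.2, Sum.inl e.1) =
        w (mis (lp e.2) (prU U Q τ X)) := by
    rintro ⟨y, p⟩ he
    obtain ⟨h1, h2⟩ := Finset.mem_filter.1 he
    obtain ⟨hy, hp⟩ := Finset.mem_product.1 h1
    obtain ⟨t, ht, x, hx, hxU, hpA, hpB, hR, rfl⟩ := h2
    obtain ⟨k1, k2⟩ := cross_cm hc hS (prU_sub X) ht (Finset.mem_inter.1 hx).2 (prD_sub X hy)
      (prU_sub X hp) hpB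
    obtain ⟨k3, k4, k5⟩ := hCM hc (prU U Q τ X) (prU_sub X) p hpA hpB x hx hxU hR
    refine ⟨?_, ?_⟩
    · show w 0 - S.cm _ (Sum.inl (σ t x), Sum.inr p) = w (mis (lp p) _)
      rw [k1, k5]
    · show w 0 - S.cm _ (Sum.inr p, Sum.inl (σ t x)) = w (mis (lp p) _)
      rw [k2, k4]
  have hsum : ∑ e ∈ ((((prD D X) ×ˢ (prU U Q τ X)).filter (fun e => nE M T U B A σ e.1 e.2)).image
        (fun e => ((Sum.inl e.1 : ℕ ⊕ ℕ), (Sum.inr e.2 : ℕ ⊕ ℕ))) ∪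
      (((prD D X) ×ˢ (prU U Q τ X)).filter (fun e => nE M T U B A σ e.1 e.2)).image
        (fun e => ((Sum.inr e.2 : ℕ ⊕ ℕ), (Sum.inl e.1 : ℕ ⊕ ℕ)))),
      (w 0 - S.cm ((prU U Q τ X ∩ Q).image (gl Q τ)) e) =
      cost M T U B A σ lp (prD D X) (prU U Q τ X) := by
    rw [Finset.sum_union, Finset.sum_image, Finset.sum_image, Finset.sum_congr rfl
      fun e he => (hcm e he).1, Finset.sum_congr rfl fun e he => (hcm e he).2]
    · unfold cost
      ring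
    · rintro ⟨a, b⟩ - ⟨c, d⟩ - he
      simp only [Prod.mk.injEq, Sum.inl.injEq, Sum.inr.injEq] at he
      rw [he.1, he.2]
    · rintro ⟨a, b⟩ - ⟨c, d⟩ - he
      simp only [Prod.mk.injEq, Sum.inl.injEq, Sum.inr.injEq] at he
      rw [he.1, he.2]
    · rw [Finset.disjoint_left]
      intro z hz hz'
      obtain ⟨e, -, h1⟩ := Finset.mem_image.1 hz
      obtain ⟨e', -, h2⟩ := Finset.mem_image.1 hz'
      rw [← h1] at h2
      simp at h2
  rw [hsum]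
  ring

end Run7.h67.LW
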