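import Pool.Agent.Run7.h520.LW.I

/-!
# GLUE (h520): glueing two structures
-/

set_option autoImplicit false
set_option linter.all false

namespace Run7.h67.LW
open Classical Run7.h520.LW

section glue

variable {V₁ V₂ U : Type}

/-- the glued structure -/
def gst (G₁ : Str V₁) (S₁ : Finset V₁) (e₁ : V₁ → U) (G₂ : Str V₂) (S₂ : Finset V₂) (e₂ : V₂ → U)
    (X : U → U → Prop) : Str U where
  pt u := (∃ x ∈ S₁, e₁ x = u ∧ G₁.pt x) ∨ (∃ x ∈ S₂, e₂ x = u ∧ G₂.pt x)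
  adj u u' := ((∃ x ∈ S₁, ∃ x' ∈ S₁, e₁ x = u ∧ e₁ x' = u' ∧ G₁.R x x') ∨
    (∃ x ∈ S₂, ∃ x' ∈ S₂, e₂ x = u ∧ e₂ x' = u' ∧ G₂.R x x')) ∨ X u u'
  inc u L := (∃ x ∈ S₁, ∃ (j : ℕ) (L' : List V₁), (∀ a ∈ L', a ∈ S₁) ∧ e₁ x = u ∧ L'.map e₁ = L ∧
      G₁.On x (j, L')) ∨
    (∃ x ∈ S₂, ∃ (j : ℕ) (L' : List V₂), (∀ a ∈ L', a ∈ S₂) ∧ e₂ x = u ∧ L'.map e₂ = L ∧
      G₂.On x (j, L'))

/-- the two parts are compatible -/
structure Cmp (G₁ : Str V₁) (S₁ : Finset V₁) (e₁ : V₁ → U) (G₂ : Str V₂) (S₂ : Finset V₂)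
    (e₂ : V₂ → U) : Prop where
  inj : ∀ x ∈ S₁, ∀ y ∈ S₁, e₁ x = e₁ y → x = y
  pt : ∀ x ∈ S₁, ∀ y ∈ S₂, e₂ y = e₁ x → G₂.pt y → G₁.pt x
  R : ∀ x ∈ S₁, ∀ x' ∈ S₁, ∀ y ∈ S₂, ∀ y' ∈ S₂, e₂ y = e₁ x → e₂ y' = e₁ x' → G₂.R y y' → G₁.R x x'
  on : ∀ x ∈ S₁, ∀ y ∈ S₂, ∀ (j : ℕ) (L : List V₁) (L' : List V₂), (∀ a ∈ L, a ∈ S₁) →
    (∀ a ∈ L', a ∈ S₂) → e₂ y = e₁ x → L'.map e₂ = L.map e₁ → G₂.On y (j, L') → G₁.On x (j, L)

theorem map_inj {e : V₁ → U} {S : Finset V₁} (h : ∀ x ∈ S, ∀ y ∈ S, e x = e y → x = y) :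
    ∀ (L L' : List V₁), (∀ a ∈ L, a ∈ S) → (∀ a ∈ L', a ∈ S) → L.map e = L'.map e → L = L' := by
  intro L
  induction L with
  | nil =>
    intro L' _ _ h'
    exact (List.map_eq_nil_iff.1 h'.symm).symm
  | cons a L ih =>
    intro L' hL hL' h'
    cases L' with
    | nil => simp at h'
    | cons b L' =>
      rw [List.map_cons, List.map_cons, List.cons.injEq] at h'
      rw [h a (hL a (by simp)) b (hL' b (by simp)) h'.1,
        ih L' (fun x hx => hL x (by simp [hx])) (fun x hx => hL' x (by simp [hx])) h'.2]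

theorem emb_gst {G₁ : Str V₁} {S₁ : Finset V₁} {e₁ : V₁ → U} {G₂ : Str V₂} {S₂ : Finset V₂}
    {e₂ : V₂ → U} {X : U → U → Prop} (hc : Cmp G₁ S₁ e₁ G₂ S₂ e₂)
    (hX : ∀ x ∈ S₁, ∀ y ∈ S₁, ¬ X (e₁ x) (e₁ y)) : Emb G₁ (gst G₁ S₁ e₁ G₂ S₂ e₂ X) S₁ e₁ := by
  have hpt : ∀ x ∈ S₁, ((gst G₁ S₁ e₁ G₂ S₂ e₂ X).pt (e₁ x) ↔ G₁.pt x) := by
    intro x hx
    constructor
    · rintro (⟨y, hy, h1, h2⟩ | ⟨y, hy, h1, h2⟩)
      · rwa [hc.inj y hy x hx h1] at h2
      · exact hc.pt x hx y hy h1 h2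
    · exact fun h => Or.inl ⟨x, hx, rfl, h⟩
  have hadj : ∀ x ∈ S₁, ∀ y ∈ S₁, (gst G₁ S₁ e₁ G₂ S₂ e₂ X).adj (e₁ x) (e₁ y) → G₁.R x y := by
    rintro x hx y hy ((⟨x', hx', y', hy', h1, h2, h3⟩ | ⟨x', hx', y', hy', h1, h2, h3⟩) | h)
    · rwa [hc.inj _ hx' _ hx h1, hc.inj _ hy' _ hy h2] at h3
    · exact hc.R x hx y hy x' hx' y' hy' h1 h2 h3
    · exact absurd h (hX x hx y hy)
  refine ⟨hc.inj, hpt, fun x hx y hy => ?_, fun x hx l hl => ?_⟩
  · constructor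
    · rintro ⟨_, _, _, h | h⟩
      · exact hadj x hx y hy h
      · exact (hadj y hy x hx h).symm
    · intro h
      exact ⟨(hpt x hx).2 h.1, (hpt y hy).2 h.2.1, fun h' => h.2.2.1 (hc.inj x hx y hy h'),
        Or.inl (Or.inl (Or.inl ⟨x, hx, y, hy, rfl, rfl, h⟩))⟩
  · obtain ⟨j, L⟩ := l
    constructor
    · rintro ⟨h1, h2, h3, h4, h5⟩
      have h2' : L.length = g j := by
        have : (L.map e₁).length = g j := h2
        rwa [List.length_map] at this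
      have h6 := h5 j le_rfl
      have h7 : (L.map e₁).take (g j) = L.map e₁ := List.take_of_length_le (by
        rw [List.length_map, h2'])
      have h6' : (gst G₁ S₁ e₁ G₂ S₂ e₂ X).inc (e₁ x) (L.map e₁) := by
        rw [← h7]; exact h6
      rcases h6' with ⟨y, hy, i, L', hL', h8, h9, h10⟩ | ⟨y, hy, i, L', hL', h8, h9, h10⟩
      · have e1 := hc.inj _ hy _ hx h8
        have e2 := map_inj hc.inj _ _ hL' hl h9
        subst e1 e2
        have h11 : L'.length = g i := h10.2.1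
        have h12 : i = j := g_strictMono.injective (h11.symm.trans h2')
        subst h12
        exact h10
      · have h11 : L'.length = g i := h10.2.1
        have h13 : L'.length = L.length := by
          have := congrArg List.length h9
          rwa [List.length_map, List.length_map] at this
        have h12 : i = j := g_strictMono.injective (h11.symm.trans (h13.trans h2'))
        subst h12
        exact hc.on x hx y hy i L L' hl hL' h8 h9 h10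
    · intro h
      refine ⟨(hpt x hx).2 h.1, ?_, ?_, ?_, ?_⟩
      · show (L.map e₁).length = g j
        rw [List.length_map]
        exact h.2.1
      · exact List.Nodup.map_on (fun a ha b hb hab => hc.inj a (hl a ha) b (hl b hb) hab) h.2.2.1
      · intro u hu hpu
        obtain ⟨a, ha, rfl⟩ := List.mem_map.1 hu
        exact h.2.2.2.1 a ha ((hpt a (hl a ha)).1 hpu)
      · intro i hi
        left
        refine ⟨x, hx, i, L.take (g i), fun a ha => hl a (List.mem_of_mem_take ha), rfl, ?_, h.pre hi⟩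
        show (L.take (g i)).map e₁ = (L.map e₁).take (g i)
        rw [List.map_take]

theorem gst_swap (G₁ : Str V₁) (S₁ : Finset V₁) (e₁ : V₁ → U) (G₂ : Str V₂) (S₂ : Finset V₂)
    (e₂ : V₂ → U) (X : U → U → Prop) : gst G₁ S₁ e₁ G₂ S₂ e₂ X = gst G₂ S₂ e₂ G₁ S₁ e₁ X := by
  unfold gst
  congr 1
  · funext u
    exact propext or_comm
  · funext u u'
    rw [or_comm (a := ∃ x ∈ S₁, ∃ x' ∈ S₁, e₁ x = u ∧ e₁ x' = u' ∧ G₁.R x x')]
  · funext u L
    exact propext or_comm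

end glue

theorem GLUE (hE : S_EMB) : S_GLUE := by
  intro V W _ _ G H C A Z φ E hG hH hA hφ hC
  have hAZ : A ⊆ Z := Finset.coe_subset.1 hA.sub
  have hAC : A.image φ ⊆ C := Finset.coe_subset.1 hC.sub
  have hgl1 : ∀ y ∈ A, gl A φ y = Sum.inl (φ y) := fun y hy => if_pos hy
  have hgl2 : ∀ y ∉ A, gl A φ y = Sum.inr y := fun y hy => if_neg hy
  have hgl3 : ∀ (x : V) (y : W), gl A φ y = Sum.inl x → y ∈ A ∧ φ y = x := by
    intro x y h
    by_cases hy : y ∈ A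
    · rw [hgl1 y hy] at h
      exact ⟨hy, Sum.inl.inj h⟩
    · rw [hgl2 y hy] at h
      exact absurd h (by simp)
  have hinj : ∀ x ∈ Z, ∀ y ∈ Z, gl A φ x = gl A φ y → x = y := by
    intro x hx y hy h
    by_cases hyA : y ∈ A
    · rw [hgl1 y hyA] at h
      obtain ⟨h1, h2⟩ := hgl3 _ _ h
      exact hφ.inj x h1 y hyA h2
    · rw [hgl2 y hyA] at h
      by_cases hxA : x ∈ A
      · rw [hgl1 x hxA] at h
        exact absurd h (by simp)
      · rw [hgl2 x hxA] at h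
        exact Sum.inr.inj h
  have hlist : ∀ (L : List V) (L' : List W), L'.map (gl A φ) = L.map Sum.inl →
      (∀ a ∈ L', a ∈ A) ∧ L'.map φ = L := by
    intro L L' h
    have h1 : ∀ a ∈ L', a ∈ A := by
      intro a ha
      have h2 : gl A φ a ∈ L.map (Sum.inl : V → V ⊕ W) := by
        rw [← h]
        exact List.mem_map_of_mem ha
      obtain ⟨x, _, hx⟩ := List.mem_map.1 h2
      exact (hgl3 x a hx.symm).1
    refine ⟨h1, ?_⟩
    have h3 : L'.map (gl A φ) = (L'.map φ).map (Sum.inl : V → V ⊕ W) := by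
      rw [List.map_map]
      exact List.map_congr_left fun a ha => hgl1 a (h1 a ha)
    rw [h3] at h
    exact List.map_injective_iff.2 Sum.inl_injective h
  let X : V ⊕ W → V ⊕ W → Prop := fun u u' => ∃ x y, u = Sum.inl x ∧ u' = Sum.inr y ∧ x ∈ C ∧
    x ∉ A.image φ ∧ y ∈ Z ∧ y ∉ A ∧ E x y
  let S : Str (V ⊕ W) := gst G C Sum.inl H Z (gl A φ) X
  have c1 : Cmp G C (Sum.inl : V → V ⊕ W) H Z (gl A φ) := by
    refine ⟨fun x _ y _ h => Sum.inl.inj h, ?_, ?_, ?_⟩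
    · intro x hx y hy h hp
      obtain ⟨h1, rfl⟩ := hgl3 x y h
      exact (hφ.pt y h1).2 hp
    · intro x hx x' hx' y hy y' hy' h h' hR
      obtain ⟨h1, rfl⟩ := hgl3 x y h
      obtain ⟨h1', rfl⟩ := hgl3 x' y' h'
      exact (hφ.R y h1 y' h1').2 hR
    · intro x hx y hy j L L' hL hL' h h' hon
      obtain ⟨h1, rfl⟩ := hgl3 x y h
      obtain ⟨h2, rfl⟩ := hlist L L' h'
      exact (hφ.on y h1 (j, L') h2).2 hon
  have c2 : Cmp H Z (gl A φ) G C (Sum.inl : V → V ⊕ W) := by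
    refine ⟨hinj, ?_, ?_, ?_⟩
    · intro y hy x hx h hp
      obtain ⟨h1, rfl⟩ := hgl3 x y h.symm
      exact (hφ.pt y h1).1 hp
    · intro y hy y' hy' x hx x' hx' h h' hR
      obtain ⟨h1, rfl⟩ := hgl3 x y h.symm
      obtain ⟨h1', rfl⟩ := hgl3 x' y' h'.symm
      exact (hφ.R y h1 y' h1').1 hR
    · intro y hy x hx j L' L hL' hL h h' hon
      obtain ⟨h1, rfl⟩ := hgl3 x y h.symm
      obtain ⟨h2, rfl⟩ := hlist L L' h'.symm
      exact (hφ.on y h1 (j, L') h2).1 hon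
  have hS1 : Emb G S C Sum.inl := by
    refine emb_gst c1 ?_
    rintro x _ y _ ⟨x', y', _, h, _⟩
    exact absurd h (by simp)
  have hS2 : Emb H S Z (gl A φ) := by
    have h1 : Emb H (gst H Z (gl A φ) G C Sum.inl X) Z (gl A φ) := by
      refine emb_gst c2 ?_
      rintro x hx y hy ⟨x', y', h, _, _, h2, _⟩
      obtain ⟨h3, h4⟩ := hgl3 _ _ h
      exact h2 (by rw [← h4]; exact Finset.mem_image_of_mem φ h3)
    have h2 : S = gst H Z (gl A φ) G C Sum.inl X := gst_swap _ _ _ _ _ _ _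
    rw [h2]
    exact h1
  have hDU : (C.image Sum.inl) ∩ (Z.image (gl A φ)) = (A.image φ).image (Sum.inl : V → V ⊕ W) := by
    ext u
    rw [Finset.mem_inter, Finset.mem_image, Finset.mem_image, Finset.mem_image]
    constructor
    · rintro ⟨⟨x, hx, rfl⟩, ⟨y, hy, h⟩⟩
      obtain ⟨h1, h2⟩ := hgl3 _ _ h
      exact ⟨x, by rw [← h2]; exact Finset.mem_image_of_mem φ h1, rfl⟩
    · rintro ⟨x, hx, rfl⟩
      refine ⟨⟨x, hAC hx, rfl⟩, ?_⟩
      obtain ⟨y, hy, rfl⟩ := Finset.mem_image.1 hx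
      exact ⟨y, hAZ hy, hgl1 y hy⟩
  have hDU' : (A.image φ).image (Sum.inl : V → V ⊕ W) = A.image (gl A φ) := by
    rw [Finset.image_image]
    exact Finset.image_congr fun y hy => (hgl1 y hy).symm
  refine ⟨S, hS1, hS2, ⟨?_, hE.c1 hS1 hG, hE.c1 hS2 hH, ?_, ?_⟩, hDU, ?_⟩
  · intro p hp l hl hon
    obtain ⟨j, L⟩ := l
    have h1 : L.length = g j := hon.2.1
    have h2 := hon.2.2.2.2 j le_rfl
    have h3 : L.take (g j) = L := List.take_of_length_le (by rw [h1])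
    have h2' : S.inc p L := by
      rw [← h3]; exact h2
    rcases h2' with ⟨x, hx, i, L', hL', h4, h5, h6⟩ | ⟨x, hx, i, L', hL', h4, h5, h6⟩
    · left
      refine ⟨by rw [← h4]; exact Finset.mem_image_of_mem _ hx, mem_lin.2 ⟨hon.2.1, hon.2.2.1, ?_⟩⟩
      intro u hu
      have hu' : u ∈ L := hu
      rw [← h5] at hu'
      obtain ⟨a, ha, rfl⟩ := List.mem_map.1 hu'
      exact Finset.mem_image_of_mem _ (hL' a ha)
    · right
      refine ⟨by rw [← h4]; exact Finset.mem_image_of_mem _ hx, mem_lin.2 ⟨hon.2.1, hon.2.2.1, ?_⟩⟩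
      intro u hu
      have hu' : u ∈ L := hu
      rw [← h5] at hu'
      obtain ⟨a, ha, rfl⟩ := List.mem_map.1 hu'
      exact Finset.mem_image_of_mem _ (hL' a ha)
  · rw [hDU]
    exact (hE.cl hS1 hAC).2 hC
  · rw [hDU, hDU']
    exact (hE.cl hS2 hAZ).2 hA
  · intro x hx hxA y hy hyA
    have hpx : S.pt (Sum.inl x) ↔ G.pt x := hS1.pt x hx
    have hpy : S.pt (Sum.inr y) ↔ H.pt y := by
      have := hS2.pt y hy
      rwa [hgl2 y hyA] at this
    have hn1 : ¬ S.adj (Sum.inr y) (Sum.inl x) := by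
      rintro ((⟨x', _, y', _, h, _⟩ | ⟨x', _, y', _, _, h, _⟩) | ⟨x', y', h, _⟩)
      · exact absurd h (by simp)
      · obtain ⟨h1, h2⟩ := hgl3 _ _ h
        exact hxA (by rw [← h2]; exact Finset.mem_image_of_mem φ h1)
      · exact absurd h (by simp)
    have hn2 : S.adj (Sum.inl x) (Sum.inr y) ↔ E x y := by
      constructor
      · rintro ((⟨x', _, y', _, _, h, _⟩ | ⟨x', _, y', _, h, _, _⟩) | ⟨x', y', h, h', _, _, _, _, hE⟩)
        · exact absurd h (by simp)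
        · obtain ⟨h1, h2⟩ := hgl3 _ _ h
          exact absurd (by rw [← h2]; exact Finset.mem_image_of_mem φ h1) hxA
        · rw [Sum.inl.inj h, Sum.inr.inj h']
          exact hE
      · intro h
        exact Or.inr ⟨x, y, rfl, rfl, hx, hxA, hy, hyA, h⟩
    constructor
    · rintro ⟨h1, h2, _, h3 | h3⟩
      · exact ⟨hpx.1 h1, hpy.1 h2, hn2.1 h3⟩
      · exact absurd h3 hn1
    · rintro ⟨h1, h2, h3⟩
      exact ⟨hpx.2 h1, hpy.2 h2, by simp, Or.inl (hn2.2 h3)⟩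

end Run7.h67.LW
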