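import Pool.Agent.Run7.h67.LW.GLUE

/-!
# RICH (h520): rich structures exist (adapted from Run7/h540/C.lean)
-/

set_option autoImplicit false
set_option linter.all false

namespace Run7.h67.LW
open Classical Run7.h520.LW

/-- transport of a structure to the natural numbers -/
theorem exists_transport {Y : Type} (S : Str Y) (Z : Finset Y) (τ : Y → ℕ)
    (hτ : ∀ a ∈ Z, ∀ b ∈ Z, τ a = τ b → a = b) : ∃ S' : Str ℕ, Emb S S' Z τ :=
  ⟨gst S Z τ S ∅ τ (fun _ _ => False), emb_gst
    ⟨hτ, fun x hx y hy => absurd hy (Finset.notMem_empty _),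
      fun x hx x' hx' y hy => absurd hy (Finset.notMem_empty _),
      fun x hx y hy => absurd hy (Finset.notMem_empty _)⟩ (fun _ _ _ _ h => h)⟩

/-- codes of extension problems -/
abbrev Code : Type :=
  Finset ℕ × Finset ℕ × Finset ℕ × Finset (ℕ × ℕ) × Finset (ℕ × ℕ × List ℕ) × (ℕ →₀ ℕ)

/-- the structure of a code -/
def Code.str (c : Code) : Str ℕ where
  pt := fun v => v ∈ c.2.2.1
  adj := fun a b => (a, b) ∈ c.2.2.2.1
  inc := fun p L => ∃ j, (p, j, L) ∈ c.2.2.2.2.1

/-- the map of a code -/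
noncomputable def Code.fn (c : Code) : ℕ → ℕ := fun n => c.2.2.2.2.2 n

theorem exists_code {W : Type} [DecidableEq W] (H : Str W) (A Z : Finset W) (hAZ : A ⊆ Z) (f : W → ℕ) :
    ∃ (c : Code) (e : W → ℕ), Emb H c.str Z e ∧ c.1 = A.image e ∧ c.2.1 = Z.image e ∧
      ∀ a ∈ A, c.fn (e a) = f a := by
  have he : ∃ e : W → ℕ, ∀ a ∈ Z, ∀ b ∈ Z, e a = e b → a = b := by
    refine ⟨fun w => if hw : w ∈ Z then (Z.equivFin ⟨w, hw⟩ : ℕ) else 0, ?_⟩
    intro a ha b hb hab
    simp only [dif_pos ha, dif_pos hb] at hab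
    have h1 := Z.equivFin.injective (Fin.ext hab)
    exact congrArg Subtype.val h1
  obtain ⟨e, he⟩ := he
  let F : ℕ →₀ ℕ := Finsupp.onFinset (A.image e)
    (fun n => if h : ∃ a ∈ A, e a = n then f h.choose else 0) (by
      intro n hn
      by_contra hcon
      apply hn
      rw [dif_neg]
      rintro ⟨a, ha, rfl⟩
      exact hcon (Finset.mem_image_of_mem e ha))
  let c : Code := (A.image e, Z.image e, (Z.filter fun v => H.pt v).image e,
    ((Z ×ˢ Z).filter fun p => H.R p.1 p.2).image (fun p => (e p.1, e p.2)),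
    (H.ic Z).image (fun p => (e p.1, p.2.1, p.2.2.map e)), F)
  have hpt : ∀ x ∈ Z, (c.str.pt (e x) ↔ H.pt x) := by
    intro x hx
    show e x ∈ (Z.filter fun v => H.pt v).image e ↔ _
    rw [Finset.mem_image]
    constructor
    · rintro ⟨y, hy, h⟩
      rw [Finset.mem_filter] at hy
      rw [← he _ hy.1 _ hx h]
      exact hy.2
    · exact fun h => ⟨x, Finset.mem_filter.2 ⟨hx, h⟩, rfl⟩
  have hadj : ∀ x ∈ Z, ∀ y ∈ Z, (c.str.adj (e x) (e y) ↔ H.R x y) := by
    intro a ha b hb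
    show (e a, e b) ∈ ((Z ×ˢ Z).filter fun p => H.R p.1 p.2).image (fun p => (e p.1, e p.2)) ↔ _
    rw [Finset.mem_image]
    constructor
    · rintro ⟨⟨x, y⟩, hxy, h1⟩
      rw [Finset.mem_filter, Finset.mem_product] at hxy
      rw [Prod.mk.injEq] at h1
      rw [← he _ hxy.1.1 _ ha h1.1, ← he _ hxy.1.2 _ hb h1.2]
      exact hxy.2
    · intro h1
      exact ⟨(a, b), Finset.mem_filter.2 ⟨Finset.mem_product.2 ⟨ha, hb⟩, h1⟩, rfl⟩
  refine ⟨c, e, ⟨he, hpt, fun x hx y hy => ?_, fun x hx l hl => ?_⟩, rfl, rfl, ?_⟩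
  · constructor
    · rintro ⟨_, _, _, h | h⟩
      · exact (hadj x hx y hy).1 h
      · exact ((hadj y hy x hx).1 h).symm
    · intro h
      exact ⟨(hpt x hx).2 h.1, (hpt y hy).2 h.2.1, fun h' => h.2.2.1 (he x hx y hy h'),
        Or.inl ((hadj x hx y hy).2 h)⟩
  · obtain ⟨j, L⟩ := l
    constructor
    · rintro ⟨h1, h2, h3, h4, h5⟩
      have h2' : L.length = g j := by
        have : (L.map e).length = g j := h2
        rwa [List.length_map] at this
      have h6 := h5 j le_rfl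
      have h7 : (L.map e).take (g j) = L.map e := List.take_of_length_le (by
        rw [List.length_map, h2'])
      have h6' : c.str.inc (e x) (L.map e) := by
        rw [← h7]; exact h6
      obtain ⟨i, hi⟩ := h6'
      have hi' : (e x, i, L.map e) ∈ (H.ic Z).image (fun p => (e p.1, p.2.1, p.2.2.map e)) := hi
      rw [Finset.mem_image] at hi'
      obtain ⟨⟨p, i', L'⟩, hp, heq⟩ := hi'
      rw [Str.mem_ic] at hp
      simp only [Prod.mk.injEq] at heq
      obtain ⟨h8, rfl, h9⟩ := heq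
      have e1 := he _ hp.1 _ hx h8
      have hL' : ∀ a ∈ L', a ∈ Z := (mem_lin.1 hp.2.1).2.2
      have e2 := map_inj he _ _ hL' hl h9
      subst e1 e2
      have h11 : L'.length = g i' := (mem_lin.1 hp.2.1).1
      have h12 : i' = j := g_strictMono.injective (h11.symm.trans h2')
      subst h12
      exact hp.2.2
    · intro h
      refine ⟨(hpt x hx).2 h.1, ?_, ?_, ?_, ?_⟩
      · show (L.map e).length = g j
        rw [List.length_map]
        exact h.2.1
      · exact List.Nodup.map_on (fun a ha b hb hab => he a (hl a ha) b (hl b hb) hab) h.2.2.1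
      · intro u hu hpu
        obtain ⟨a, ha, rfl⟩ := List.mem_map.1 hu
        exact h.2.2.2.1 a ha ((hpt a (hl a ha)).1 hpu)
      · intro i hi
        have hpre := h.pre (i := i) hi
        have hmem : (x, pre i (j, L)) ∈ H.ic Z := by
          rw [Str.mem_ic]
          exact ⟨hx, hpre.isLn fun a ha => hl a (List.mem_of_mem_take ha), hpre⟩
        refine ⟨i, ?_⟩
        show _ ∈ (H.ic Z).image (fun p => (e p.1, p.2.1, p.2.2.map e))
        rw [Finset.mem_image]
        refine ⟨_, hmem, ?_⟩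
        show (e x, i, (L.take (g i)).map e) = (e x, i, (L.map e).take (g i))
        rw [List.map_take]
  · intro a ha
    have h1 : ∃ a' ∈ A, e a' = e a := ⟨a, ha, rfl⟩
    have h2 : h1.choose = a := he _ (hAZ h1.choose_spec.1) _ (hAZ ha) h1.choose_spec.2
    show (if h : ∃ a' ∈ A, e a' = e a then f h.choose else 0) = f a
    rw [dif_pos h1, h2]

/-- the problem makes sense at a stage -/
def Cond (c : Code) (S : Str ℕ) (C : Finset ℕ) : Prop :=
  c.str.Cls ↑c.2.1 ∧ c.str.Cl c.1 ↑c.2.1 ∧ Emb c.str S c.1 c.fn ∧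
    S.Cl (c.1.image c.fn) ↑C

section

variable (hE : S_EMB) (hT2 : S_T2) (hG : S_GLUE)

include hE hT2 hG

theorem exists_step (S : Str ℕ) (C : Finset ℕ) (hK : S.Cls ↑C) (c : Code) :
    ∃ (S' : Str ℕ) (C' : Finset ℕ), S'.Cls ↑C' ∧ C ⊆ C' ∧ Emb S S' C id ∧ S'.Cl C ↑C' ∧
      (Cond c S C → ∃ g : ℕ → ℕ, Emb c.str S' c.2.1 g ∧ (∀ a ∈ c.1, g a = c.fn a) ∧
        S'.Cl (c.2.1.image g) ↑C') := by
  by_cases hc : Cond c S C
  swap
  · exact ⟨S, C, hK, Finset.Subset.refl _, hE.refl _ _, Str.Cl.self C, fun h => absurd h hc⟩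
  obtain ⟨hc1, hc2, hc3, hc4⟩ := hc
  set f : ℕ → ℕ := c.fn with hf
  have hAZ : c.1 ⊆ c.2.1 := Finset.coe_subset.1 hc2.sub
  have hAC : c.1.image f ⊆ C := Finset.coe_subset.1 hc4.sub
  obtain ⟨S0, hei, he0, hT, hint, hR⟩ := hG S c.str C c.1 c.2.1 f (fun _ _ => False) hK.c1 hc1.c1
    hc2 hc3 hc4
  set D : Finset (ℕ ⊕ ℕ) := C.image Sum.inl with hD
  set U : Finset (ℕ ⊕ ℕ) := c.2.1.image (gl c.1 f) with hU
  obtain ⟨hfK, hfD, hfU⟩ := hT2.free hT (by
    intro x hx hxU y hy hyD hxy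
    obtain ⟨x', hx', rfl⟩ := Finset.mem_image.1 hx
    obtain ⟨y', hy', rfl⟩ := Finset.mem_image.1 hy
    by_cases hyA : y' ∈ c.1
    · apply hyD
      unfold gl
      rw [if_pos hyA]
      exact Finset.mem_image_of_mem _ (hAC (Finset.mem_image_of_mem f hyA))
    · have e : gl c.1 f y' = Sum.inr y' := if_neg hyA
      rw [e] at hxy
      by_cases hxA : x' ∈ c.1.image f
      · obtain ⟨z, hz, rfl⟩ := Finset.mem_image.1 hxA
        apply hxU
        have e' : gl c.1 f z = Sum.inl (f z) := if_pos hz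
        rw [← e']
        exact Finset.mem_image_of_mem _ (hAZ hz)
      · exact ((hR x' hx' hxA y' hy' hyA).1 hxy).2.2)
    ((hE.cls hei).2 hK) ((hE.cls he0).2 hc1)
  -- the transport
  have hiZ : D ⊆ D ∪ U := Finset.subset_union_left
  have h0Z : U ⊆ D ∪ U := Finset.subset_union_right
  have hτ : ∃ τ : ℕ ⊕ ℕ → ℕ, (∀ a ∈ D ∪ U, ∀ b ∈ D ∪ U, τ a = τ b → a = b) ∧
      ∀ x ∈ C, τ (Sum.inl x) = x := by
    let N := C.sup id + 1
    have hN : ∀ x ∈ C, x < N := fun x hx => Nat.lt_succ_of_le (Finset.le_sup (f := id) hx)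
    refine ⟨fun z => if h : ∃ x ∈ C, Sum.inl x = z then h.choose else N + Encodable.encode z, ?_, ?_⟩
    · intro a ha b hb hab
      by_cases h1 : ∃ x ∈ C, Sum.inl x = a
      · by_cases h2 : ∃ x ∈ C, Sum.inl x = b
        · simp only [dif_pos h1, dif_pos h2] at hab
          rw [← h1.choose_spec.2, ← h2.choose_spec.2, hab]
        · simp only [dif_pos h1, dif_neg h2] at hab
          have := hN _ h1.choose_spec.1
          omega
      · by_cases h2 : ∃ x ∈ C, Sum.inl x = b
        · simp only [dif_neg h1, dif_pos h2] at hab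
          have := hN _ h2.choose_spec.1
          omega
        · simp only [dif_neg h1, dif_neg h2] at hab
          exact Encodable.encode_injective (by omega)
    · intro x hx
      have h1 : ∃ x' ∈ C, (Sum.inl x' : ℕ ⊕ ℕ) = Sum.inl x := ⟨x, hx, rfl⟩
      show (if h : ∃ x' ∈ C, (Sum.inl x' : ℕ ⊕ ℕ) = Sum.inl x then h.choose
        else N + Encodable.encode (Sum.inl x)) = x
      rw [dif_pos h1]
      exact Sum.inl.inj h1.choose_spec.2
  obtain ⟨τ, hτ1, hτ2⟩ := hτ
  obtain ⟨S', hS'⟩ := exists_transport S0 (D ∪ U) τ hτ1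
  have hCτ : D.image τ = C := by
    rw [hD, Finset.image_image]
    ext x
    rw [Finset.mem_image]
    constructor
    · rintro ⟨a, ha, rfl⟩
      rw [Function.comp_apply, hτ2 a ha]
      exact ha
    · intro hx
      exact ⟨x, hx, hτ2 x hx⟩
  refine ⟨S', (D ∪ U).image τ, (hE.cls hS').2 hfK, ?_, ?_, ?_, fun _ => ⟨τ ∘ gl c.1 f, ?_, ?_, ?_⟩⟩
  · rw [← hCτ]
    exact Finset.image_subset_image hiZ
  · refine hE.congr (hE.comp hei (hE.mono hS' hiZ)) ?_
    intro a ha
    exact (hτ2 a ha).symm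
  · have := (hE.cl hS' hiZ).2 hfD
    rw [hCτ] at this
    exact this
  · exact hE.comp he0 (hE.mono hS' h0Z)
  · intro a ha
    have e : gl c.1 f a = Sum.inl (f a) := if_pos ha
    rw [Function.comp_apply, e]
    exact hτ2 _ (hAC (Finset.mem_image_of_mem f ha))
  · rw [← Finset.image_image]
    exact (hE.cl hS' h0Z).2 hfU

theorem RICH (hC : S_CLO) : S_RICH := by
  -- the enumeration
  obtain ⟨en, hen⟩ := exists_surjective_nat (ℕ × Code)
  -- the chain
  let St : Type := {p : Str ℕ × Finset ℕ // p.1.Cls ↑p.2}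
  have hstep : ∀ (k : ℕ) (s : St), ∃ s' : St, s.1.2 ⊆ s'.1.2 ∧ Emb s.1.1 s'.1.1 s.1.2 id ∧
      s'.1.1.Cl s.1.2 ↑s'.1.2 ∧
      (Cond (en k).2 s.1.1 s.1.2 → ∃ g : ℕ → ℕ, Emb (en k).2.str s'.1.1 (en k).2.2.1 g ∧
        (∀ a ∈ (en k).2.1, g a = (en k).2.fn a) ∧
        s'.1.1.Cl ((en k).2.2.1.image g) ↑s'.1.2) := by
    intro k s
    obtain ⟨S', C', h1, h2, h3, h4, h5⟩ := exists_step hE hT2 hG s.1.1 s.1.2 s.2 (en k).2
    exact ⟨⟨(S', C'), h1⟩, h2, h3, h4, h5⟩
  choose nx hnx1 hnx2 hnx3 hnx4 using hstep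
  let S00 : Str ℕ := ⟨fun _ => False, fun _ _ => False, fun _ _ => False⟩
  have hS00 : S00.Cls ↑(∅ : Finset ℕ) := by
    refine ⟨?_, ?_⟩
    · intro j S Y hS hY
      have h2 : Y = ∅ := Finset.subset_empty.1 (Finset.coe_subset.1 hY)
      subst h2
      rw [Finset.sum_empty]
      positivity
    · intro X hX
      have h1 : X = ∅ := Finset.subset_empty.1 (Finset.coe_subset.1 hX.sub)
      subst h1
      rw [Str.dl_empty, Finset.card_empty, f_zero]
  let ch : ℕ → St := fun k => Nat.rec ⟨(S00, ∅), hS00⟩ (fun k s => nx k s) k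
  have hch : ∀ k, ch (k + 1) = nx k (ch k) := fun k => rfl
  set Zc : ℕ → Finset ℕ := fun k => (ch k).1.2 with hZc
  set Sc : ℕ → Str ℕ := fun k => (ch k).1.1 with hSc
  have hK : ∀ k, (Sc k).Cls ↑(Zc k) := fun k => (ch k).2
  have h1 : ∀ k, Zc k ⊆ Zc (k + 1) := fun k => hnx1 k (ch k)
  have h2 : ∀ k, Emb (Sc k) (Sc (k + 1)) (Zc k) id := fun k => hnx2 k (ch k)
  have h3 : ∀ k, (Sc (k + 1)).Cl (Zc k) ↑(Zc (k + 1)) := fun k => hnx3 k (ch k)
  have h4 : ∀ k, Cond (en k).2 (Sc k) (Zc k) →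
      ∃ g : ℕ → ℕ, Emb (en k).2.str (Sc (k + 1)) (en k).2.2.1 g ∧
        (∀ a ∈ (en k).2.1, g a = (en k).2.fn a) ∧
        (Sc (k + 1)).Cl ((en k).2.2.1.image g) ↑(Zc (k + 1)) := fun k => hnx4 k (ch k)
  have mono : ∀ k l, k ≤ l → Zc k ⊆ Zc l := by
    intro k l hkl
    induction l, hkl using Nat.le_induction with
    | base => exact Finset.Subset.refl _
    | succ l _ ih => exact ih.trans (h1 l)
  have emb : ∀ k l, k ≤ l → Emb (Sc k) (Sc l) (Zc k) id := by
    intro k l hkl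
    induction l, hkl using Nat.le_induction with
    | base => exact hE.refl _ _
    | succ l hl ih =>
      have h5 := hE.mono (h2 l) (mono k l hl)
      have h6 : Emb (Sc l) (Sc (l + 1)) ((Zc k).image id) id := by
        rw [Finset.image_id]
        exact h5
      exact hE.comp ih h6
  -- comparison of two stages
  have hcmp_pt : ∀ k l v, v ∈ Zc k → v ∈ Zc l → (Sc k).pt v → (Sc l).pt v := by
    intro k l v hk hl hv
    rcases le_total k l with hkl | hkl
    · exact ((emb k l hkl).pt v hk).2 hv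
    · exact ((emb l k hkl).pt v hl).1 hv
  have hcmp_R : ∀ k l a b, a ∈ Zc k → b ∈ Zc k → a ∈ Zc l → b ∈ Zc l → (Sc k).R a b → (Sc l).R a b := by
    intro k l a b hak hbk hal hbl hab
    rcases le_total k l with hkl | hkl
    · exact ((emb k l hkl).R a hak b hbk).2 hab
    · exact ((emb l k hkl).R a hal b hbl).1 hab
  have hcmp_on : ∀ k l p j (L : List ℕ), p ∈ Zc k → (∀ x ∈ L, x ∈ Zc k) → p ∈ Zc l →
      (∀ x ∈ L, x ∈ Zc l) → (Sc k).On p (j, L) → (Sc l).On p (j, L) := by
    intro k l p j L hpk hLk hpl hLl hon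
    rcases le_total k l with hkl | hkl
    · have := ((emb k l hkl).on p hpk (j, L) hLk).2 hon
      simpa using this
    · have := ((emb l k hkl).on p hpl (j, L) hLl).1
      simp only [List.map_id, id] at this
      exact this hon
  -- the limit
  let Ω : Set ℕ := {v | ∃ k, v ∈ Zc k}
  let M : Str ℕ := ⟨fun v => ∃ k, v ∈ Zc k ∧ (Sc k).pt v,
    fun a b => ∃ k, a ∈ Zc k ∧ b ∈ Zc k ∧ (Sc k).R a b,
    fun p L => ∃ k, p ∈ Zc k ∧ (∀ x ∈ L, x ∈ Zc k) ∧ ∃ j, (Sc k).On p (j, L)⟩
  have hM : ∀ k, Emb (Sc k) M (Zc k) id := by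
    intro k
    have hpt : ∀ x ∈ Zc k, (M.pt x ↔ (Sc k).pt x) := by
      intro x hx
      constructor
      · rintro ⟨l, hl, hv⟩
        exact hcmp_pt l k x hl hx hv
      · exact fun h => ⟨k, hx, h⟩
    have hadj : ∀ x ∈ Zc k, ∀ y ∈ Zc k, (M.adj x y ↔ (Sc k).R x y) := by
      intro x hx y hy
      constructor
      · rintro ⟨l, hl, hl', hv⟩
        exact hcmp_R l k x y hl hl' hx hy hv
      · exact fun h => ⟨k, hx, hy, h⟩
    refine ⟨fun a _ b _ hab => hab, hpt, fun x hx y hy => ?_, fun x hx l hl => ?_⟩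
    · constructor
      · rintro ⟨_, _, _, h | h⟩
        · exact (hadj x hx y hy).1 h
        · exact ((hadj y hy x hx).1 h).symm
      · intro h
        exact ⟨(hpt x hx).2 h.1, (hpt y hy).2 h.2.1, h.2.2.1, Or.inl ((hadj x hx y hy).2 h)⟩
    · obtain ⟨j, L⟩ := l
      show M.On x (j, L.map id) ↔ _
      rw [List.map_id]
      constructor
      · rintro ⟨h5, h6, h7, h8, h9⟩
        have h10 := h9 j le_rfl
        have h11 : L.take (g j) = L := List.take_of_length_le (by
          have : L.length = g j := h6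
          omega)
        have h12 : M.inc x L := by
          rw [← h11]; exact h10
        obtain ⟨l, hxl, hLl, i, hi⟩ := h12
        have h13 : i = j := g_strictMono.injective ((show L.length = g i from hi.2.1).symm.trans h6)
        subst h13
        exact hcmp_on l k x i L hxl hLl hx hl hi
      · intro h
        refine ⟨(hpt x hx).2 h.1, h.2.1, h.2.2.1, fun a ha hpa => ?_, fun i hi => ?_⟩
        · exact h.2.2.2.1 a ha ((hpt a (hl a ha)).1 hpa)
        · exact ⟨k, hx, fun a ha => hl a (List.mem_of_mem_take ha), i, h.pre hi⟩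
  have hMcl : ∀ k (T : Finset ℕ), T ⊆ Zc k → (M.Cl T ↑(Zc k) ↔ (Sc k).Cl T ↑(Zc k)) := by
    intro k T hT
    have h5 := hE.cl (hM k) hT
    rw [Finset.image_id, Finset.image_id] at h5
    exact h5
  have hMK : ∀ k, M.Cls ↑(Zc k) := by
    intro k
    have h5 := hE.cls (hM k)
    rw [Finset.image_id] at h5
    exact h5.2 (hK k)
  have hfinΩ : ∀ F : Finset ℕ, ↑F ⊆ Ω → ∃ k, F ⊆ Zc k := by
    intro F
    induction F using Finset.induction_on with
    | empty => exact fun _ => ⟨0, Finset.empty_subset _⟩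
    | insert v F _ ih =>
      intro hF
      rw [Finset.coe_insert, Set.insert_subset_iff] at hF
      obtain ⟨k, hk⟩ := ih hF.2
      obtain ⟨l, hl⟩ := hF.1
      exact ⟨max k l, Finset.insert_subset (mono l _ (le_max_right _ _) hl)
        (hk.trans (mono k _ (le_max_left _ _)))⟩
  have hcl : ∀ k l, k ≤ l → M.Cl (Zc k) ↑(Zc l) := by
    intro k l hkl
    induction l, hkl using Nat.le_induction with
    | base => exact Str.Cl.self _
    | succ l hl ih =>
      have h5 : M.Cl (Zc l) ↑(Zc (l + 1)) := (hMcl (l + 1) _ (h1 l)).2 (h3 l)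
      exact hC.trans (Str.amb_finset (hMK (l + 1)).c1) ih h5
  have hsubΩ : ∀ k, ↑(Zc k) ⊆ Ω := fun k v hv => ⟨k, hv⟩
  have hclΩ : ∀ k, M.Cl (Zc k) Ω := by
    intro k
    refine ⟨⟨hsubΩ k, ?_, ?_⟩, ?_⟩
    · intro l hl hN
      obtain ⟨m, hm⟩ := hfinΩ l.2.toFinset (fun x hx => hl x (List.mem_toFinset.1 (Finset.mem_coe.1 hx)))
      have h5 := (hcl k (max k m) (le_max_left _ _)).1.g1 l (fun x hx =>
        Finset.mem_coe.2 (mono m _ (le_max_right _ _) (hm (List.mem_toFinset.2 hx)))) hN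
      exact h5
    · rintro v ⟨l, hl⟩ hv j
      exact (hcl k (max k l) (le_max_left _ _)).1.g2 v
        (Finset.mem_coe.2 (mono l _ (le_max_right _ _) hl)) hv j
    · intro B hB hkB
      obtain ⟨l, hl⟩ := hfinΩ B hB.sub
      have h5 : B ⊆ Zc (max k l) := hl.trans (mono l _ (le_max_right _ _))
      exact (hcl k (max k l) (le_max_left _ _)).2 B
        (Str.PC.mono hB (hsubΩ _) (Finset.coe_subset.2 h5)) hkB
  have hKΩ : M.Cls Ω := by
    refine ⟨?_, ?_⟩
    · intro j S Y hS hY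
      obtain ⟨k, hk⟩ := hfinΩ (S ∪ Y) (by
        rw [Finset.coe_union]
        exact Set.union_subset hS hY)
      exact (hMK k).c1 j S Y (Finset.coe_subset.2 (Finset.subset_union_left.trans hk))
        (Finset.coe_subset.2 (Finset.subset_union_right.trans hk))
    · intro X hX
      obtain ⟨k, hk⟩ := hfinΩ X hX.sub
      exact (hMK k).c2 X (Str.PC.mono hX (hsubΩ k) (Finset.coe_subset.2 hk))
  have hfin : ∀ S : Finset ℕ, ↑S ⊆ Ω → ∃ C : Finset ℕ, S ⊆ C ∧ M.Cl C Ω := fun S hS => by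
    obtain ⟨k, hk⟩ := hfinΩ S hS
    exact ⟨Zc k, hk, hclΩ k⟩
  have hamb : M.Amb Ω := ⟨hKΩ.c1, hfin⟩
  refine ⟨M, Ω, hKΩ, hfin, ?_⟩
  intro W H A Z hHK hHcl f hf hfcl
  have hAZ : A ⊆ Z := Finset.coe_subset.1 hHcl.sub
  obtain ⟨c, e, he, hc1, hc2, hcf⟩ := exists_code H A Z hAZ f
  obtain ⟨K, hKf⟩ := hfinΩ (A.image f) hfcl.sub
  -- the stage
  have hstage : ∃ k, K ≤ k ∧ (en k).2 = c := by
    by_contra hcon
    push Not at hcon
    have h5 : ∀ n : ℕ, ∃ k, k < K ∧ en k = (n, c) := by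
      intro n
      obtain ⟨k, hk⟩ := hen (n, c)
      refine ⟨k, ?_, hk⟩
      by_contra h6
      exact hcon k (not_lt.1 h6) (by rw [hk])
    choose kk hkk1 hkk2 using h5
    have hinj : Function.Injective kk := by
      intro m n hmn
      have h6 := hkk2 m
      rw [hmn, hkk2 n] at h6
      exact ((Prod.mk.injEq _ _ _ _).mp h6).1.symm
    exact Set.infinite_of_injective_forall_mem hinj (fun n => (hkk1 n : kk n ∈ Set.Iio K))
      (Set.finite_Iio K)
  obtain ⟨k, hKk, hkc⟩ := hstage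
  have hAk : A.image f ⊆ Zc k := hKf.trans (mono K k hKk)
  -- the problem makes sense at the stage
  have hfe : (A.image e).image c.fn = A.image f := by
    rw [Finset.image_image]
    exact Finset.image_congr fun a ha => hcf a ha
  have hcond : Cond c (Sc k) (Zc k) := by
    refine ⟨?_, ?_, ?_, ?_⟩
    · rw [hc2]
      exact (hE.cls he).2 hHK
    · rw [hc1, hc2]
      exact (hE.cl he hAZ).2 hHcl
    · rw [hc1]
      have h6 : Emb c.str M (A.image e) c.fn := by
        rcases isEmpty_or_nonempty W with hW | hW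
        · have hA0 : A = ∅ := Finset.eq_empty_of_isEmpty A
          rw [hA0, Finset.image_empty]
          exact ⟨by simp, by simp, by simp, by simp⟩
        obtain ⟨e', he1, he2, he3⟩ := hE.inv (hE.mono he hAZ)
        have h5 : Emb c.str M (A.image e) (f ∘ e') := by
          refine hE.comp he2 ?_
          rw [he3]
          exact hf
        refine hE.congr h5 ?_
        intro x hx
        obtain ⟨a, ha, rfl⟩ := Finset.mem_image.1 hx
        rw [Function.comp_apply, he1 a ha]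
        exact hcf a ha
      have hsub : ∀ x ∈ A.image e, c.fn x ∈ Zc k := by
        intro x hx
        obtain ⟨a, ha, rfl⟩ := Finset.mem_image.1 hx
        rw [hcf a ha]
        exact hAk (Finset.mem_image_of_mem f ha)
      refine ⟨h6.inj, ?_, ?_, ?_⟩
      · intro x hx
        rw [← h6.pt x hx]
        exact ((hM k).pt _ (hsub x hx)).symm
      · intro x hx y hy
        rw [← h6.R x hx y hy]
        exact ((hM k).R _ (hsub x hx) _ (hsub y hy)).symm
      · intro x hx l hl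
        rw [← h6.on x hx l hl]
        have h7 := (hM k).on _ (hsub x hx) (l.1, l.2.map c.fn) (by
          intro y hy
          obtain ⟨z, hz, rfl⟩ := List.mem_map.1 hy
          exact hsub z (hl z hz))
        simp only [List.map_id, id] at h7
        exact h7.symm
    · rw [hc1, hfe]
      exact (hMcl k _ hAk).1 (hfcl.down hAk (hclΩ k).1)
  have h5 := h4 k
  rw [hkc] at h5
  obtain ⟨g, hg1, hg2, hg3⟩ := h5 hcond
  rw [hc2] at hg1 hg3
  have hgZ : (Z.image e).image g ⊆ Zc (k + 1) := Finset.coe_subset.1 hg3.sub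
  have hg1' : Emb c.str M (Z.image e) g := by
    have h6 : Emb (Sc (k + 1)) M ((Z.image e).image g) id := hE.mono (hM (k + 1)) hgZ
    have h7 : Emb c.str M (Z.image e) (id ∘ g) := hE.comp (φ := g) (ψ := id) hg1 h6
    exact h7
  refine ⟨g ∘ e, hE.comp he hg1', ?_, ?_⟩
  · intro a ha
    rw [Function.comp_apply, hg2 _ (by rw [hc1]; exact Finset.mem_image_of_mem e ha)]
    exact hcf a ha
  · rw [← Finset.image_image]
    exact hC.trans hamb ((hMcl (k + 1) _ hgZ).2 hg3) (hclΩ (k + 1))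

end

end Run7.h67.LW
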