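import Pool.Agent.Run7.h520.LW.I

/-!
# SIM (h520): back and forth in rich structures (adapted from Run7/h540/D1.lean, D3.lean)
-/

set_option autoImplicit false
set_option linter.all false

namespace Run7.h67.LW
open Classical Run7.h520.LW

section general

theorem rg_eq {α : Type} [Finite α] (s : α → ℕ) (v : ℕ) : v ∈ rg s ↔ ∃ i, s i = v := by
  unfold rg
  rw [dif_pos (Set.finite_range s), Set.Finite.mem_toFinset, Set.mem_range]

theorem mem_rg {α : Type} [Finite α] (s : α → ℕ) (i : α) : s i ∈ rg s := (rg_eq s _).2 ⟨i, rfl⟩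

theorem rg_sub {α : Type} [Finite α] {s : α → ℕ} {Z : Set ℕ} (hs : ∀ i, s i ∈ Z) : ↑(rg s) ⊆ Z := by
  intro v hv
  obtain ⟨i, rfl⟩ := (rg_eq s v).1 hv
  exact hs i

theorem rg_sub' {α : Type} [Finite α] {s : α → ℕ} {Z : Finset ℕ} (hs : ∀ i, s i ∈ Z) : rg s ⊆ Z := by
  intro v hv
  obtain ⟨i, rfl⟩ := (rg_eq s v).1 hv
  exact hs i

theorem card_rg {α : Type} [Finite α] (s : α → ℕ) : (rg s).card ≤ Nat.card α := by
  haveI := Fintype.ofFinite α
  have h1 : rg s = Finset.univ.image s := by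
    ext v
    rw [rg_eq]
    simp
  rw [h1, Nat.card_eq_fintype_card]
  exact Finset.card_image_le

end general

section D

variable {M : Str ℕ} {Ω : Set ℕ} {α β γ : Type}

theorem r_isC (hC : S_CLO) (h : Rich M Ω) {S : Finset ℕ} (hS : ↑S ⊆ Ω) :
    M.IsC S (clo M Ω S) Ω := by
  have h1 := hC.exists_isC h.amb hS
  unfold clo
  rw [dif_pos h1]
  exact h1.choose_spec

theorem r_clo_cl (hC : S_CLO) (h : Rich M Ω) {S : Finset ℕ} (hS : ↑S ⊆ Ω) :
    M.Cl (clo M Ω S) Ω := (r_isC hC h hS).1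
theorem r_sub_clo (hC : S_CLO) (h : Rich M Ω) {S : Finset ℕ} (hS : ↑S ⊆ Ω) :
    S ⊆ clo M Ω S := (r_isC hC h hS).2.1
theorem r_clo_le (hC : S_CLO) (h : Rich M Ω) {S C : Finset ℕ} (hS : S ⊆ C) (hCC : M.Cl C Ω) :
    clo M Ω S ⊆ C :=
  (r_isC hC h ((Finset.coe_subset.2 hS).trans hCC.sub)).2.2 C hCC hS

/-- closed subsets of the domain and of the image -/
theorem r_cl_image (hE : S_EMB) (hC : S_CLO) (h : Rich M Ω) {A T : Finset ℕ} {f : ℕ → ℕ}
    (hA : M.Cl A Ω) (hf : Emb M M A f)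
    (hA' : M.Cl (A.image f) Ω) (hT : T ⊆ A) : M.Cl (T.image f) Ω ↔ M.Cl T Ω := by
  constructor
  · intro h1
    have h2 : M.Cl (T.image f) ↑(A.image f) := h1.down (Finset.image_subset_image hT) hA'.1
    exact hC.trans h.amb ((hE.cl hf hT).1 h2) hA
  · intro h1
    have h2 : M.Cl T ↑A := h1.down hT hA.1
    exact hC.trans h.amb ((hE.cl hf hT).2 h2) hA'

theorem r_clo_image (hE : S_EMB) (hC : S_CLO) (h : Rich M Ω) {A S : Finset ℕ} {f : ℕ → ℕ}
    (hA : M.Cl A Ω) (hf : Emb M M A f) (hA' : M.Cl (A.image f) Ω) (hS : S ⊆ A) :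
    (clo M Ω S).image f = clo M Ω (S.image f) := by
  obtain ⟨g, hg1, hg2, hg3⟩ := hE.inv hf
  have hSΩ : ↑S ⊆ Ω := (Finset.coe_subset.2 hS).trans hA.sub
  have hSf : S.image f ⊆ A.image f := Finset.image_subset_image hS
  have hS'Ω : ↑(S.image f) ⊆ Ω := (Finset.coe_subset.2 hSf).trans hA'.sub
  have hCA : clo M Ω S ⊆ A := r_clo_le hC h hS hA
  have hC'A : clo M Ω (S.image f) ⊆ A.image f := r_clo_le hC h hSf hA'
  apply Finset.Subset.antisymm
  · have h2 : M.Cl ((clo M Ω (S.image f)).image g) Ω :=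
      (r_cl_image hE hC h hA' hg2 (by rw [hg3]; exact hA) hC'A).2 (r_clo_cl hC h hS'Ω)
    have h3 : S ⊆ (clo M Ω (S.image f)).image g := by
      intro x hx
      refine Finset.mem_image.2 ⟨f x, r_sub_clo hC h hS'Ω (Finset.mem_image_of_mem f hx), ?_⟩
      exact hg1 _ (hS hx)
    have h4 := r_clo_le hC h h3 h2
    intro y hy
    obtain ⟨x, hx, rfl⟩ := Finset.mem_image.1 hy
    obtain ⟨z, hz, rfl⟩ := Finset.mem_image.1 (h4 hx)
    obtain ⟨a, ha, rfl⟩ := Finset.mem_image.1 (hC'A hz)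
    rw [hg1 a ha]
    exact hz
  · refine r_clo_le hC h ?_ ((r_cl_image hE hC h hA hf hA' hCA).2 (r_clo_cl hC h hSΩ))
    exact Finset.image_subset_image (r_sub_clo hC h hSΩ)

theorem r_refl (hE : S_EMB) (hC : S_CLO) (h : Rich M Ω) [Finite α] (s : α → ℕ)
    (hs : ∀ i, s i ∈ Ω) : SimV M Ω s s := by
  have hS := rg_sub hs
  refine ⟨clo M Ω (rg s), id, r_clo_cl hC h hS, hE.refl _ _, ?_,
    fun i => ⟨r_sub_clo hC h hS (mem_rg s i), rfl⟩⟩
  rw [Finset.image_id]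
  exact r_clo_cl hC h hS

theorem r_symm (hE : S_EMB) {s t : α → ℕ} (hs : SimV M Ω s t) : SimV M Ω t s := by
  obtain ⟨A, f, hA, hf, hA', hst⟩ := hs
  obtain ⟨g, hg1, hg2, hg3⟩ := hE.inv hf
  refine ⟨A.image f, g, hA', hg2, ?_, fun i => ⟨?_, ?_⟩⟩
  · rw [hg3]
    exact hA
  · rw [← (hst i).2]
    exact Finset.mem_image_of_mem f (hst i).1
  · rw [← (hst i).2]
    exact hg1 _ (hst i).1

theorem r_trans (hE : S_EMB) (hCL : S_CLO) (h : Rich M Ω) {s t r : α → ℕ}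
    (h1 : SimV M Ω s t) (h2 : SimV M Ω t r) :
    SimV M Ω s r := by
  obtain ⟨A, f, hA, hf, hA', hst⟩ := h1
  obtain ⟨B, k, hB, hk, hB', htr⟩ := h2
  obtain ⟨g, hg1, hg2, hg3⟩ := hE.inv hf
  set C := A.image f ∩ B with hC
  have hCc : M.Cl C Ω := hCL.inter h.amb hA' hB
  have hCA : C ⊆ A.image f := Finset.inter_subset_left
  have hCB : C ⊆ B := Finset.inter_subset_right
  have hT : M.Cl (C.image g) Ω :=
    (r_cl_image hE hCL h hA' hg2 (by rw [hg3]; exact hA) hCA).2 hCc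
  have hfg : ∀ c ∈ C, f (g c) = c := by
    intro c hc
    obtain ⟨a, ha, rfl⟩ := Finset.mem_image.1 (hCA hc)
    rw [hg1 a ha]
  have hTA : C.image g ⊆ A := by
    rw [← hg3]
    exact Finset.image_subset_image hCA
  have hTf : (C.image g).image f = C := by
    ext c
    constructor
    · intro hc
      obtain ⟨x, hx, rfl⟩ := Finset.mem_image.1 hc
      obtain ⟨c', hc', rfl⟩ := Finset.mem_image.1 hx
      rw [hfg c' hc']
      exact hc'
    · intro hc
      exact Finset.mem_image.2 ⟨g c, Finset.mem_image_of_mem g hc, hfg c hc⟩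
  refine ⟨C.image g, k ∘ f, hT, ?_, ?_, fun i => ?_⟩
  · have h3 : Emb M M ((C.image g).image f) k := by
      rw [hTf]
      exact hE.mono hk hCB
    exact hE.comp (hE.mono hf hTA) h3
  · rw [← Finset.image_image, hTf]
    exact (r_cl_image hE hCL h hB hk hB' hCB).2 hCc
  · have htC : t i ∈ C := by
      rw [hC, Finset.mem_inter]
      refine ⟨?_, (htr i).1⟩
      rw [← (hst i).2]
      exact Finset.mem_image_of_mem f (hst i).1
    refine ⟨Finset.mem_image.2 ⟨t i, htC, ?_⟩, ?_⟩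
    · rw [← (hst i).2]
      exact hg1 _ (hst i).1
    · rw [Function.comp_apply, (hst i).2, (htr i).2]

theorem r_comp {s t : α → ℕ} (h1 : SimV M Ω s t) (g : β → α) :
    SimV M Ω (s ∘ g) (t ∘ g) := by
  obtain ⟨A, f, hA, hf, hA', hst⟩ := h1
  exact ⟨A, f, hA, hf, hA', fun i => hst (g i)⟩

theorem r_forth (hE : S_EMB) (hCL : S_CLO) (h : Rich M Ω) [Finite β] {s t : α → ℕ}
    (h1 : SimV M Ω s t) (x : β → ℕ)
    (hx : ∀ i, x i ∈ Ω) : ∃ y : β → ℕ, (∀ i, y i ∈ Ω) ∧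
      SimV M Ω (Sum.elim s x) (Sum.elim t y) := by
  obtain ⟨A, f, hA, hf, hA', hst⟩ := h1
  have hS : ↑(A ∪ rg x) ⊆ Ω := by
    rw [Finset.coe_union]
    exact Set.union_subset hA.sub (rg_sub hx)
  set C := clo M Ω (A ∪ rg x) with hC
  have hCc : M.Cl C Ω := r_clo_cl hCL h hS
  have hsub : A ∪ rg x ⊆ C := r_sub_clo hCL h hS
  have hAC : A ⊆ C := Finset.subset_union_left.trans hsub
  obtain ⟨g, hg1, hg2, hg3⟩ := h.rich ℕ M A C (h.k.sub hCc.1) (hA.down hAC hCc.1) f hf hA'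
  have hxC : ∀ i, x i ∈ C := fun i => hsub (Finset.mem_union_right _ (mem_rg x i))
  refine ⟨g ∘ x, fun i => ?_, C, g, hCc, hg1, hg3, ?_⟩
  · exact hg3.sub (Finset.mem_coe.2 (Finset.mem_image_of_mem g (hxC i)))
  · rintro (i | i)
    · refine ⟨hAC (hst i).1, ?_⟩
      rw [Sum.elim_inl, Sum.elim_inl, hg2 _ (hst i).1, (hst i).2]
    · exact ⟨hxC i, rfl⟩

theorem rg_image [Finite α] {s t : α → ℕ} {f : ℕ → ℕ} (h : ∀ i, f (s i) = t i) :
    (rg s).image f = rg t := by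
  ext v
  rw [Finset.mem_image, rg_eq]
  constructor
  · rintro ⟨x, hx, rfl⟩
    obtain ⟨i, rfl⟩ := (rg_eq s x).1 hx
    exact ⟨i, (h i).symm⟩
  · rintro ⟨i, rfl⟩
    exact ⟨s i, mem_rg s i, h i⟩

theorem r_cl (hE : S_EMB) (hCL : S_CLO) (h : Rich M Ω) [Finite α] {s t : α → ℕ}
    (h1 : SimV M Ω s t) : ∃ f : ℕ → ℕ,
    Emb M M (clo M Ω (rg s)) f ∧ (clo M Ω (rg s)).image f = clo M Ω (rg t) ∧
      ∀ i, f (s i) = t i := by
  obtain ⟨A, f, hA, hf, hA', hst⟩ := h1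
  have hsA : rg s ⊆ A := rg_sub' fun i => (hst i).1
  refine ⟨f, hE.mono hf (r_clo_le hCL h hsA hA), ?_, fun i => (hst i).2⟩
  rw [r_clo_image hE hCL h hA hf hA' hsA, rg_image fun i => (hst i).2]

theorem map_inj_on {V W : Type} {C : Finset V} {e : V → W}
    (he : Set.InjOn e C) : ∀ {l l' : List V}, (∀ y ∈ l, y ∈ C) → (∀ y ∈ l', y ∈ C) →
      l.map e = l'.map e → l = l'
  | [], [], _, _, _ => rfl
  | [], _ :: _, _, _, h => by simp at h
  | _ :: _, [], _, _, h => by simp at h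
  | a :: l, b :: l', h1, h2, h => by
    simp only [List.map_cons, List.cons.injEq] at h
    have e1 : a = b := he (h1 a List.mem_cons_self) (h2 b List.mem_cons_self) h.1
    have e2 := map_inj_on he (fun y hy => h1 y (List.mem_cons_of_mem _ hy))
      (fun y hy => h2 y (List.mem_cons_of_mem _ hy)) h.2
    rw [e1, e2]

/-- tuples with the same code -/
theorem r_sim_of_code (hCL : S_CLO) (h : Rich M Ω) [Finite α] {N : ℕ} {s t : α → ℕ}
    (hs : ∀ i, s i ∈ Ω) (ht : ∀ i, t i ∈ Ω)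
    (e e' : ℕ → Fin N) (he : Set.InjOn e (clo M Ω (rg s))) (he' : Set.InjOn e' (clo M Ω (rg t)))
    (h0 : ∀ k, (∃ x ∈ clo M Ω (rg s), e x = k) ↔ ∃ x ∈ clo M Ω (rg t), e' x = k)
    (h1 : ∀ k, (∃ x ∈ clo M Ω (rg s), e x = k ∧ M.pt x) ↔
      ∃ x ∈ clo M Ω (rg t), e' x = k ∧ M.pt x)
    (h2 : ∀ k l, (∃ x ∈ clo M Ω (rg s), ∃ y ∈ clo M Ω (rg s), e x = k ∧ e y = l ∧ M.R x y) ↔
      ∃ x ∈ clo M Ω (rg t), ∃ y ∈ clo M Ω (rg t), e' x = k ∧ e' y = l ∧ M.R x y)
    (h4 : ∀ k j L, (∃ x ∈ clo M Ω (rg s), ∃ l : List ℕ, (∀ y ∈ l, y ∈ clo M Ω (rg s)) ∧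
        e x = k ∧ l.map e = L ∧ M.On x (j, l)) ↔
      ∃ x ∈ clo M Ω (rg t), ∃ l : List ℕ, (∀ y ∈ l, y ∈ clo M Ω (rg t)) ∧
        e' x = k ∧ l.map e' = L ∧ M.On x (j, l))
    (h3 : ∀ i, e (s i) = e' (t i)) : SimV M Ω s t := by
  have hsS := rg_sub hs
  have htS := rg_sub ht
  have hex : ∀ x, ∃ y, x ∈ clo M Ω (rg s) → y ∈ clo M Ω (rg t) ∧ e' y = e x := by
    intro x
    by_cases hx : x ∈ clo M Ω (rg s)
    · obtain ⟨y, hy, h5⟩ := (h0 (e x)).1 ⟨x, hx, rfl⟩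
      exact ⟨y, fun _ => ⟨hy, h5⟩⟩
    · exact ⟨0, fun h => absurd h hx⟩
  choose f hf using hex
  have hinj : ∀ a ∈ clo M Ω (rg s), ∀ b ∈ clo M Ω (rg s), f a = f b → a = b := by
    intro a ha b hb hab
    apply he ha hb
    rw [← (hf a ha).2, ← (hf b hb).2, hab]
  have hsurj : (clo M Ω (rg s)).image f = clo M Ω (rg t) := by
    ext y
    constructor
    · intro hy
      obtain ⟨x, hx, rfl⟩ := Finset.mem_image.1 hy
      exact (hf x hx).1
    · intro hy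
      obtain ⟨x, hx, h4⟩ := (h0 (e' y)).2 ⟨y, hy, rfl⟩
      refine Finset.mem_image.2 ⟨x, hx, ?_⟩
      apply he' (hf x hx).1 hy
      rw [(hf x hx).2, h4]
  have hmap : ∀ l : List ℕ, (∀ y ∈ l, y ∈ clo M Ω (rg s)) → (l.map f).map e' = l.map e := by
    intro l hl
    rw [List.map_map]
    exact List.map_congr_left fun y hy => (hf y (hl y hy)).2
  have hmapC : ∀ l : List ℕ, (∀ y ∈ l, y ∈ clo M Ω (rg s)) → ∀ y ∈ l.map f, y ∈ clo M Ω (rg t) := by
    intro l hl y hy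
    obtain ⟨z, hz, rfl⟩ := List.mem_map.1 hy
    exact (hf z (hl z hz)).1
  refine ⟨clo M Ω (rg s), f, r_clo_cl hCL h hsS, ⟨hinj, ?_, ?_, ?_⟩, ?_, fun i => ⟨?_, ?_⟩⟩
  · intro a ha
    constructor
    · intro hp
      obtain ⟨x, hx, h5, h6⟩ := (h1 (e a)).2 ⟨f a, (hf a ha).1, (hf a ha).2, hp⟩
      rw [← he hx ha h5]
      exact h6
    · intro hp
      obtain ⟨x, hx, h5, h6⟩ := (h1 (e a)).1 ⟨a, ha, rfl, hp⟩
      rw [← (hf a ha).2] at h5
      rw [← he' hx (hf a ha).1 h5]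
      exact h6
  · intro a ha b hb
    constructor
    · intro hab
      obtain ⟨x, hx, y, hy, h4, h5, h6⟩ := (h2 (e a) (e b)).2
        ⟨f a, (hf a ha).1, f b, (hf b hb).1, (hf a ha).2, (hf b hb).2, hab⟩
      rw [← he hx ha h4, ← he hy hb h5]
      exact h6
    · intro hab
      obtain ⟨x, hx, y, hy, h4, h5, h6⟩ := (h2 (e a) (e b)).1 ⟨a, ha, b, hb, rfl, rfl, hab⟩
      rw [← (hf a ha).2] at h4
      rw [← (hf b hb).2] at h5
      rw [← he' hx (hf a ha).1 h4, ← he' hy (hf b hb).1 h5]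
      exact h6
  · intro a ha l hl
    constructor
    · intro hon
      obtain ⟨x, hx, l', hl', h5, h6, h7⟩ := (h4 (e a) l.1 (l.2.map e)).2
        ⟨f a, (hf a ha).1, l.2.map f, hmapC l.2 hl, (hf a ha).2, hmap l.2 hl, hon⟩
      have e1 := he hx ha h5
      have e2 := map_inj_on he hl' hl h6
      rw [e1, e2] at h7
      exact h7
    · intro hon
      obtain ⟨x, hx, l', hl', h5, h6, h7⟩ := (h4 (e a) l.1 (l.2.map e)).1
        ⟨a, ha, l.2, hl, rfl, rfl, hon⟩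
      rw [← (hf a ha).2] at h5
      rw [← hmap l.2 hl] at h6
      have e1 := he' hx (hf a ha).1 h5
      have e2 := map_inj_on he' hl' (hmapC l.2 hl) h6
      rw [e1, e2] at h7
      exact h7
  · rw [hsurj]
    exact r_clo_cl hCL h htS
  · exact r_sub_clo hCL h hsS (mem_rg s i)
  · have hi := r_sub_clo hCL h hsS (mem_rg s i)
    apply he' (hf _ hi).1 (r_sub_clo hCL h htS (mem_rg t i))
    rw [(hf _ hi).2, h3 i]

theorem r_fin (hCL : S_CLO) (h : Rich M Ω) (α : Type) [Finite α] :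
    ∃ F : Set (α → ℕ), F.Finite ∧
    (∀ s ∈ F, ∀ i, s i ∈ Ω) ∧ ∀ t : α → ℕ, (∀ i, t i ∈ Ω) → ∃ s ∈ F, SimV M Ω s t := by
  obtain ⟨B, hB⟩ := hCL.card (Nat.card α)
  set N := B + 1 with hN
  have hNpos : 0 < N := by omega
  have hcard : ∀ t : α → ℕ, (∀ i, t i ∈ Ω) → (clo M Ω (rg t)).card ≤ N := by
    intro t ht
    have h1 := hB h.amb h.k (card_rg t) (r_isC hCL h (rg_sub ht))
    omega
  have hex : ∀ t : α → ℕ, ∃ e : ℕ → Fin N, (∀ i, t i ∈ Ω) → Set.InjOn e (clo M Ω (rg t)) := by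
    intro t
    by_cases ht : ∀ i, t i ∈ Ω
    · refine ⟨fun x => if hx : x ∈ clo M Ω (rg t) then
        Fin.castLE (hcard t ht) ((clo M Ω (rg t)).equivFin ⟨x, hx⟩) else ⟨0, hNpos⟩, fun _ => ?_⟩
      intro x hx y hy hxy
      simp only [Finset.mem_coe] at hx hy
      simp only [dif_pos hx, dif_pos hy] at hxy
      have h1 := Fin.castLE_injective (hcard t ht) hxy
      have h2 := (clo M Ω (rg t)).equivFin.injective h1
      exact congrArg Subtype.val h2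
    · exact ⟨fun _ => ⟨0, hNpos⟩, fun h => absurd h ht⟩
  choose e he using hex
  let Code : Type := (Fin N → Prop) × (Fin N → Prop) × (Fin N → Fin N → Prop) ×
    (Fin N → Fin (N + 1) → {L : List (Fin N) // L.Nodup} → Prop) × (α → Fin N)
  let code : (α → ℕ) → Code := fun t =>
    (fun k => ∃ x ∈ clo M Ω (rg t), e t x = k,
     fun k => ∃ x ∈ clo M Ω (rg t), e t x = k ∧ M.pt x,
     fun k l => ∃ x ∈ clo M Ω (rg t), ∃ y ∈ clo M Ω (rg t), e t x = k ∧ e t y = l ∧ M.R x y,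
     fun k j L => ∃ x ∈ clo M Ω (rg t), ∃ l : List ℕ, (∀ y ∈ l, y ∈ clo M Ω (rg t)) ∧
        e t x = k ∧ l.map (e t) = L.1 ∧ M.On x (j.1, l),
     fun i => e t (t i))
  haveI : Finite {L : List (Fin N) // L.Nodup} := Finite.of_fintype _
  haveI : Finite Code := inferInstance
  let S : Set (α → ℕ) := {t | ∀ i, t i ∈ Ω}
  have hfin : (code '' S).Finite := Set.toFinite _
  have hrep : ∀ c : Code, ∃ t : α → ℕ, c ∈ code '' S → t ∈ S ∧ code t = c := by
    intro c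
    by_cases hc : c ∈ code '' S
    · obtain ⟨t, ht, rfl⟩ := hc
      exact ⟨t, fun _ => ⟨ht, rfl⟩⟩
    · exact ⟨fun _ => 0, fun h => absurd h hc⟩
  choose rep hrep using hrep
  -- the level and the list of a line in a closure
  have hlev : ∀ t : α → ℕ, (∀ i, t i ∈ Ω) → ∀ (x j : ℕ) (l : List ℕ),
      (∀ y ∈ l, y ∈ clo M Ω (rg t)) → M.On x (j, l) → j < N + 1 ∧ (l.map (e t)).Nodup := by
    intro t ht x j l hl hon
    constructor
    · have h1 : (j, l) ∈ lin (clo M Ω (rg t)) := hon.isLn hl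
      have h2 := (mem_lin.1 h1).card
      have h3 := g_lt j
      have h4 := hcard t ht
      simp only at h2
      omega
    · have h1 : l.Nodup := hon.2.2.1
      exact h1.map_on fun x hx y hy hxy => he t ht (hl x hx) (hl y hy) hxy
  refine ⟨rep '' (code '' S), hfin.image _, ?_, ?_⟩
  · rintro s ⟨c, hc, rfl⟩
    exact (hrep c hc).1
  · intro t ht
    have hc : code t ∈ code '' S := ⟨t, ht, rfl⟩
    refine ⟨rep (code t), ⟨_, hc, rfl⟩, ?_⟩
    obtain ⟨hs, hcode⟩ := hrep _ hc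
    have e0 := congrArg (fun z : Code => z.1) hcode
    have e1 := congrArg (fun z : Code => z.2.1) hcode
    have e2 := congrArg (fun z : Code => z.2.2.1) hcode
    have e3 := congrArg (fun z : Code => z.2.2.2.1) hcode
    have e4 := congrArg (fun z : Code => z.2.2.2.2) hcode
    refine r_sim_of_code hCL h hs ht (e _) (e t) (he _ hs) (he _ ht) (fun k => ?_) (fun k => ?_)
      (fun k l => ?_) (fun k j L => ?_) (fun i => ?_)
    · exact iff_of_eq (congrFun e0 k)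
    · exact iff_of_eq (congrFun e1 k)
    · exact iff_of_eq (congrFun (congrFun e2 k) l)
    · by_cases hjL : j < N + 1 ∧ L.Nodup
      · exact iff_of_eq (congrFun (congrFun (congrFun e3 k) ⟨j, hjL.1⟩) ⟨L, hjL.2⟩)
      · constructor
        · rintro ⟨x, hx, l, hl, h1, h2, h3⟩
          refine absurd ?_ hjL
          rw [← h2]
          exact hlev _ hs x j l hl h3
        · rintro ⟨x, hx, l, hl, h1, h2, h3⟩
          refine absurd ?_ hjL
          rw [← h2]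
          exact hlev _ ht x j l hl h3
    · exact congrFun e4 i

end D

theorem SIM (hE : S_EMB) (hC : S_CLO) (M : Str ℕ) (Ω : Set ℕ) (h : Rich M Ω) : S_SIM M Ω where
  isC := fun hS => r_isC hC h hS
  cl_image := fun hA hf hA' hT => r_cl_image hE hC h hA hf hA' hT
  clo_image := fun hA hf hA' hS => r_clo_image hE hC h hA hf hA' hS
  refl := fun s hs => r_refl hE hC h s hs
  symm := fun hs => r_symm hE hs
  trans := fun h1 h2 => r_trans hE hC h h1 h2
  comp := fun h1 g => r_comp h1 g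
  forth := fun h1 x hx => r_forth hE hC h h1 x hx
  cl := fun h1 => r_cl hE hC h h1
  fin := fun α => r_fin hC h α

end Run7.h67.LW
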